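import Pool.Agent.H87.OCS.Gen

/-!
# OCS: the rows RWS and RWM
-/

set_option autoImplicit false

namespace Pool.OCS.RW

open Finset Real
open Pool.Agent.H49.Ent Pool.Agent.H32.Dense Pool.STK Pool.KAF Pool.KVA Pool.SLO

variable (d : Dat)

/-- The precisions in the cells of stage A. -/
def ES (mu : d.Om × d.Om → ℤ) (lam s : ℕ) (w : d.Om × d.Om) : Fin 5 → ℤ :=
  ![(s : ℤ), s, ((s - lam : ℕ) : ℤ), ((s - lam : ℕ) : ℤ), (s : ℤ) + mu w]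

/-- The numbers in the cells of stage A. -/
noncomputable def xS (w : d.Om × d.Om) : Fin 5 → ℝ :=
  ![d.pt (d.T w.1) (d.L w.1) 0, d.pt (d.T w.1) (d.L w.1) 1, d.omR (d.L w.1) 0,
    d.omR (d.L w.1) 1, d.us w]

/-- The precisions in the cells of the mates. -/
def EM (n s : ℕ) (_ : d.Om × d.Om) : Fin 5 → ℤ :=
  ![((max d.X (s + 8 * n) : ℕ) : ℤ), ((max d.X (s + 8 * n) : ℕ) : ℤ),
    ((max d.X (s + 8 * n) : ℕ) : ℤ), ((max d.X (s + 8 * n) : ℕ) : ℤ), (s : ℤ)]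

/-- The numbers in the cells of the mates. -/
noncomputable def xM (w : d.Om × d.Om) : Fin 5 → ℝ :=
  ![d.pt (d.T w.2) (d.L w.1) 0, d.pt (d.T w.2) (d.L w.1) 1, d.ct (d.T w.2) (d.L w.1),
    d.ka (d.T w.2) (d.L w.1), d.omR (d.L w.1) 0]

theorem fl5 {W : Type} (E : ℕ → W → Fin 5 → ℤ) (xs : W → Fin 5 → ℝ) (s : ℕ) (w w' : W) :
    (∀ r, fl E xs s w r = fl E xs s w' r) ↔
      ⌊(2 : ℝ) ^ (E s w 0) * xs w 0⌋ = ⌊(2 : ℝ) ^ (E s w' 0) * xs w' 0⌋ ∧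
      ⌊(2 : ℝ) ^ (E s w 1) * xs w 1⌋ = ⌊(2 : ℝ) ^ (E s w' 1) * xs w' 1⌋ ∧
      ⌊(2 : ℝ) ^ (E s w 2) * xs w 2⌋ = ⌊(2 : ℝ) ^ (E s w' 2) * xs w' 2⌋ ∧
      ⌊(2 : ℝ) ^ (E s w 3) * xs w 3⌋ = ⌊(2 : ℝ) ^ (E s w' 3) * xs w' 3⌋ ∧
      ⌊(2 : ℝ) ^ (E s w 4) * xs w 4⌋ = ⌊(2 : ℝ) ^ (E s w' 4) * xs w' 4⌋ := by
  unfold fl
  constructor
  · intro h
    exact ⟨h 0, h 1, h 2, h 3, h 4⟩
  · rintro ⟨h0, h1, h2, h3, h4⟩ r
    fin_cases r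
    · exact h0
    · exact h1
    · exact h2
    · exact h3
    · exact h4

theorem GS_iff (mu : d.Om × d.Om → ℤ) (lam s : ℕ) (w w' : d.Om × d.Om) :
    d.GS mu lam s w = d.GS mu lam s w' ↔ d.T w.1 = d.T w'.1 ∧ d.T w.2 = d.T w'.2 ∧
      mu w = mu w' ∧ ∀ r, fl (ES d mu lam) (xS d) s w r = fl (ES d mu lam) (xS d) s w' r := by
  rw [fl5]
  show (d.T w.1, d.T w.2, mu w, d.ptd s w.1, d.omd (s - lam) (d.L w.1),
    ⌊(2 : ℝ) ^ ((s : ℤ) + mu w) * d.us w⌋) = (d.T w'.1, d.T w'.2, mu w', d.ptd s w'.1,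
      d.omd (s - lam) (d.L w'.1), ⌊(2 : ℝ) ^ ((s : ℤ) + mu w') * d.us w'⌋) ↔ _
  simp only [Prod.mk.injEq, funext_iff, Fin.forall_fin_two]
  show _ ↔ d.T w.1 = d.T w'.1 ∧ d.T w.2 = d.T w'.2 ∧ mu w = mu w' ∧
    ⌊(2 : ℝ) ^ (s : ℤ) * d.pt (d.T w.1) (d.L w.1) 0⌋ =
      ⌊(2 : ℝ) ^ (s : ℤ) * d.pt (d.T w'.1) (d.L w'.1) 0⌋ ∧
    ⌊(2 : ℝ) ^ (s : ℤ) * d.pt (d.T w.1) (d.L w.1) 1⌋ =
      ⌊(2 : ℝ) ^ (s : ℤ) * d.pt (d.T w'.1) (d.L w'.1) 1⌋ ∧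
    ⌊(2 : ℝ) ^ ((s - lam : ℕ) : ℤ) * d.omR (d.L w.1) 0⌋ =
      ⌊(2 : ℝ) ^ ((s - lam : ℕ) : ℤ) * d.omR (d.L w'.1) 0⌋ ∧
    ⌊(2 : ℝ) ^ ((s - lam : ℕ) : ℤ) * d.omR (d.L w.1) 1⌋ =
      ⌊(2 : ℝ) ^ ((s - lam : ℕ) : ℤ) * d.omR (d.L w'.1) 1⌋ ∧
    ⌊(2 : ℝ) ^ ((s : ℤ) + mu w) * d.us w⌋ = ⌊(2 : ℝ) ^ ((s : ℤ) + mu w') * d.us w'⌋
  simp only [zpow_natCast]
  constructor
  · rintro ⟨h1, h2, h3, ⟨h4, h5⟩, ⟨h6, h7⟩, h8⟩
    exact ⟨h1, h2, h3, h4, h5, h6, h7, h8⟩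
  · rintro ⟨h1, h2, h3, h4, h5, h6, h7, h8⟩
    exact ⟨h1, h2, h3, ⟨h4, h5⟩, ⟨h6, h7⟩, h8⟩

theorem GM_iff (c : d.Om × d.Om → ℤ) (n s : ℕ) (w w' : d.Om × d.Om) :
    d.GM c n s w = d.GM c n s w' ↔ d.T w.1 = d.T w'.1 ∧ d.T w.2 = d.T w'.2 ∧
      c w = c w' ∧ ∀ r, fl (EM d n) (xM d) s w r = fl (EM d n) (xM d) s w' r := by
  rw [fl5]
  show (d.T w.1, d.T w.2, c w, d.pd (max d.X (s + 8 * n)) (d.T w.2) (d.L w.1),
    d.omd s (d.L w.1) 0) = (d.T w'.1, d.T w'.2, c w',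
      d.pd (max d.X (s + 8 * n)) (d.T w'.2) (d.L w'.1), d.omd s (d.L w'.1) 0) ↔ _
  unfold Dat.pd
  simp only [Prod.mk.injEq, funext_iff, Fin.forall_fin_two]
  show _ ↔ d.T w.1 = d.T w'.1 ∧ d.T w.2 = d.T w'.2 ∧ c w = c w' ∧
    ⌊(2 : ℝ) ^ ((max d.X (s + 8 * n) : ℕ) : ℤ) * d.pt (d.T w.2) (d.L w.1) 0⌋ =
      ⌊(2 : ℝ) ^ ((max d.X (s + 8 * n) : ℕ) : ℤ) * d.pt (d.T w'.2) (d.L w'.1) 0⌋ ∧
    ⌊(2 : ℝ) ^ ((max d.X (s + 8 * n) : ℕ) : ℤ) * d.pt (d.T w.2) (d.L w.1) 1⌋ =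
      ⌊(2 : ℝ) ^ ((max d.X (s + 8 * n) : ℕ) : ℤ) * d.pt (d.T w'.2) (d.L w'.1) 1⌋ ∧
    ⌊(2 : ℝ) ^ ((max d.X (s + 8 * n) : ℕ) : ℤ) * d.ct (d.T w.2) (d.L w.1)⌋ =
      ⌊(2 : ℝ) ^ ((max d.X (s + 8 * n) : ℕ) : ℤ) * d.ct (d.T w'.2) (d.L w'.1)⌋ ∧
    ⌊(2 : ℝ) ^ ((max d.X (s + 8 * n) : ℕ) : ℤ) * d.ka (d.T w.2) (d.L w.1)⌋ =
      ⌊(2 : ℝ) ^ ((max d.X (s + 8 * n) : ℕ) : ℤ) * d.ka (d.T w'.2) (d.L w'.1)⌋ ∧
    ⌊(2 : ℝ) ^ (s : ℤ) * d.omR (d.L w.1) 0⌋ = ⌊(2 : ℝ) ^ (s : ℤ) * d.omR (d.L w'.1) 0⌋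
  simp only [zpow_natCast]
  constructor
  · rintro ⟨h1, h2, h3, ⟨⟨h4, h5⟩, h6, h7⟩, h8⟩
    exact ⟨h1, h2, h3, h4, h5, h6, h7, h8⟩
  · rintro ⟨h1, h2, h3, h4, h5, h6, h7, h8⟩
    exact ⟨h1, h2, h3, ⟨⟨h4, h5⟩, h6, h7⟩, h8⟩

theorem ES_step (mu : d.Om × d.Om → ℤ) (lam s : ℕ) (w : d.Om × d.Om) (r : Fin 5) :
    ES d mu lam (s + 1) w r = ES d mu lam s w r ∨
      ES d mu lam (s + 1) w r = ES d mu lam s w r + 1 := by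
  have h1 : ((s + 1 - lam : ℕ) : ℤ) = ((s - lam : ℕ) : ℤ) ∨
      ((s + 1 - lam : ℕ) : ℤ) = ((s - lam : ℕ) : ℤ) + 1 := by omega
  fin_cases r
  · right
    show ((s + 1 : ℕ) : ℤ) = (s : ℤ) + 1
    push_cast
    rfl
  · right
    show ((s + 1 : ℕ) : ℤ) = (s : ℤ) + 1
    push_cast
    rfl
  · exact h1
  · exact h1
  · right
    show ((s + 1 : ℕ) : ℤ) + mu w = (s : ℤ) + mu w + 1
    push_cast
    ring

theorem EM_step (n s : ℕ) (w : d.Om × d.Om) (r : Fin 5) :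
    EM d n (s + 1) w r = EM d n s w r ∨ EM d n (s + 1) w r = EM d n s w r + 1 := by
  have h1 : ((max d.X (s + 1 + 8 * n) : ℕ) : ℤ) = ((max d.X (s + 8 * n) : ℕ) : ℤ) ∨
      ((max d.X (s + 1 + 8 * n) : ℕ) : ℤ) = ((max d.X (s + 8 * n) : ℕ) : ℤ) + 1 := by omega
  fin_cases r
  · exact h1
  · exact h1
  · exact h1
  · exact h1
  · right
    show ((s + 1 : ℕ) : ℤ) = (s : ℤ) + 1
    push_cast
    rfl

/-- The numbers of the cells are functions of the times and of the digits of the line. -/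
theorem lin_eq {l l' : d.Lam} (h : d.V l = d.V l') :
    d.yR l = d.yR l' ∧ d.omR l = d.omR l' ∧ d.beR l = d.beR l' := by
  have h1 : (d.y l, d.om l, d.be l) = (d.y l', d.om l', d.be l') := h
  simp only [Prod.mk.injEq] at h1
  unfold Dat.yR Dat.omR Dat.beR
  rw [h1.1, h1.2.1, h1.2.2]
  exact ⟨rfl, rfl, rfl⟩

theorem xS_eq {w w' : d.Om × d.Om} (h1 : d.T w.1 = d.T w'.1) (h2 : d.T w.2 = d.T w'.2)
    (h3 : d.V (d.L w.1) = d.V (d.L w'.1)) : xS d w = xS d w' := by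
  obtain ⟨e1, e2, e3⟩ := lin_eq d h3
  unfold xS Dat.pt Dat.us Dat.ta Dat.ZR
  rw [h1, h2, e1, e2, h3]

theorem xM_eq {w w' : d.Om × d.Om} (h2 : d.T w.2 = d.T w'.2)
    (h3 : d.V (d.L w.1) = d.V (d.L w'.1)) : xM d w = xM d w' := by
  obtain ⟨e1, e2, e3⟩ := lin_eq d h3
  unfold xM Dat.pt Dat.ct Dat.ka
  rw [h2, e1, e2, e3]

end Pool.OCS.RW

namespace Pool.OCS

open Finset Real
open Pool.Agent.H49.Ent Pool.Agent.H32.Dense Pool.STK Pool.KAF Pool.KVA Pool.SLO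
open RW

theorem rws_thm : RWSStmt := by
  intro d A J mu lam n j k k₁ e δ ι hOK hH1 hδ hmu hmuX hlog hrow
  have hp := hOK.law
  have hX : (0 : ℝ) ≤ d.X := Nat.cast_nonneg _
  have hι : 0 ≤ ι * d.X := by
    refine le_trans ?_ hH1.1
    rw [CLU.MI_eq hp.nonneg]
    have := CH_mono_cond hp.nonneg (X := d.T) (W' := fun ω => (d.L ω, ())) (W := fun _ => ())
      (fun _ _ _ _ _ => rfl)
    linarith
  have hδX : 3 * (ι * d.X) ≤ δ * d.X := by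
    have := mul_le_mul_of_nonneg_right hδ hX
    linarith
  constructor
  · intro i _ q W hclose
    refine row_gen d hOK hrow (d.Q3 j i) (Q3_isLaw d hp j i) (fun u => u.1) (Q3_fst d hp j i)
      (fun u => u.2) (Q3_snd d hp j i) (fun u hu => (Q3_pos d hp hu).2.2) mu hmu hmuX hlog
      ((Q3_mi d hp j i hH1.1).trans hδX) (d.GS mu lam) (ES d mu lam) (xS d)
      (fun s w w' => GS_iff d mu lam s w w') (fun s w r => ES_step d mu lam s w r) ?_ ?_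
      (fun u => q (mu u.1) (d.T u.1.1) (d.T u.1.2) (d.T u.2))
      {u | (mu u.1, d.T u.1.1, d.T u.1.2, d.T u.2) ∈ W} ?_ ?_
    · intro s w w' h
      unfold ES
      rw [h]
    · intro w w' h1 h2 h3
      exact xS_eq d h1 h2 h3
    · intro u u' h1 h2 h3 h4
      have h5 : (mu u.1, d.T u.1.1, d.T u.1.2, d.T u.2) =
          (mu u'.1, d.T u'.1.1, d.T u'.1.2, d.T u'.2) := by
        show (mu u.1, d.T u.1.1, d.T u.1.2, d.T u.2) = _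
        rw [h1, h2, h3, h4]
      refine ⟨?_, ?_⟩
      · show q (mu u.1) (d.T u.1.1) (d.T u.1.2) (d.T u.2) =
          q (mu u'.1) (d.T u'.1.1) (d.T u'.1.2) (d.T u'.2)
        simp only [Prod.mk.injEq] at h5
        rw [h5.1, h5.2.1, h5.2.2.1, h5.2.2.2]
      · show (mu u.1, d.T u.1.1, d.T u.1.2, d.T u.2) ∈ W ↔
          (mu u'.1, d.T u'.1.1, d.T u'.1.2, d.T u'.2) ∈ W
        rw [h5]
    · intro u v s hu hv hW hs hG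
      exact hclose u v s hu hv hW hs hG
  · intro q W hclose
    refine row_gen d hOK hrow (d.Qp j) (Qp_isLaw d hp j) (fun u => u) Pool.OC.marg_id
      (fun u => u.2) (Qp_snd d hp.nonneg j) (fun u hu => (Qp_pos d hp hu).2.2.symm) mu hmu hmuX
      hlog ?_ (d.GS mu lam) (ES d mu lam) (xS d)
      (fun s w w' => GS_iff d mu lam s w w') (fun s w r => ES_step d mu lam s w r) ?_ ?_
      (fun u => q (mu u) (d.T u.1) (d.T u.2)) {u | (mu u, d.T u.1, d.T u.2) ∈ W} ?_ ?_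
    · refine le_trans ?_ ((Qp_mi d hp j hH1.1).trans (by linarith))
      refine CLU.MI_mono (Qp_isLaw d hp j).nonneg (fun w => d.L w.1)
        (fun w => (d.T w.1, d.T w.2)) (fun w => ((d.T w.1, d.T w.2), d.T w.2)) _ ?_
      intro w w' _ _ h
      simp only [Prod.mk.injEq] at h ⊢
      tauto
    · intro s w w' h
      unfold ES
      rw [h]
    · intro w w' h1 h2 h3
      exact xS_eq d h1 h2 h3
    · intro u u' h1 h2 _ h4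
      have h5 : (mu u, d.T u.1, d.T u.2) = (mu u', d.T u'.1, d.T u'.2) := by
        show (mu u, d.T u.1, d.T u.2) = _
        rw [h1, h2, h4]
      refine ⟨?_, ?_⟩
      · show q (mu u) (d.T u.1) (d.T u.2) = q (mu u') (d.T u'.1) (d.T u'.2)
        simp only [Prod.mk.injEq] at h5
        rw [h5.1, h5.2.1, h5.2.2]
      · show (mu u, d.T u.1, d.T u.2) ∈ W ↔ (mu u', d.T u'.1, d.T u'.2) ∈ W
        rw [h5]
    · intro u v s hu hv hW hs hG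
      exact hclose u v s hu hv hW hs hG

theorem rwm_thm : RWMStmt := by
  intro d A J c n j k k₁ e δ ι hOK hH1 hδ hc hcX hlog hrow
  have hp := hOK.law
  have hX : (0 : ℝ) ≤ d.X := Nat.cast_nonneg _
  have hδX : 3 * (ι * d.X) ≤ δ * d.X := by
    have := mul_le_mul_of_nonneg_right hδ hX
    linarith
  intro i _ q W hclose
  refine row_gen d hOK hrow (d.Q3 j i) (Q3_isLaw d hp j i) (fun u => u.1) (Q3_fst d hp j i)
    (fun u => u.2) (Q3_snd d hp j i) (fun u hu => (Q3_pos d hp hu).2.2) c hc hcX hlog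
    ((Q3_mi d hp j i hH1.1).trans hδX) (d.GM c n) (EM d n) (xM d)
    (fun s w w' => GM_iff d c n s w w') (fun s w r => EM_step d n s w r) ?_ ?_
    (fun u => q (c u.1) (d.T u.1.1) (d.T u.1.2) (d.T u.2))
    {u | (c u.1, d.T u.1.1, d.T u.1.2, d.T u.2) ∈ W} ?_ ?_
  · intro s w w' _
    rfl
  · intro w w' _ h2 h3
    exact xM_eq d h2 h3
  · intro u u' h1 h2 h3 h4
    have h5 : (c u.1, d.T u.1.1, d.T u.1.2, d.T u.2) =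
        (c u'.1, d.T u'.1.1, d.T u'.1.2, d.T u'.2) := by
      show (c u.1, d.T u.1.1, d.T u.1.2, d.T u.2) = _
      rw [h1, h2, h3, h4]
    refine ⟨?_, ?_⟩
    · show q (c u.1) (d.T u.1.1) (d.T u.1.2) (d.T u.2) =
        q (c u'.1) (d.T u'.1.1) (d.T u'.1.2) (d.T u'.2)
      simp only [Prod.mk.injEq] at h5
      rw [h5.1, h5.2.1, h5.2.2.1, h5.2.2.2]
    · show (c u.1, d.T u.1.1, d.T u.1.2, d.T u.2) ∈ W ↔
        (c u'.1, d.T u'.1.1, d.T u'.1.2, d.T u'.2) ∈ W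
      rw [h5]
  · intro u v s hu hv hW hs hG
    exact hclose u v s hu hv hW hs hG

end Pool.OCS
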