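import Pool.Agent.H88.OCS.Stmts
import Pool.Agent.H87.SLO.Gen

/-!
# OCS: the rows RWS and RWM, general part
-/

set_option autoImplicit false

namespace Pool.OCS.RW

open Finset Real
open Pool.Agent.H49.Ent Pool.Agent.H32.Dense Pool.STK Pool.KAF Pool.KVA Pool.SLO

theorem law_self {Ω Ω' : Type} [Fintype Ω] [Fintype Ω'] {Q : Ω → ℝ} {P : Ω' → ℝ} {f : Ω → Ω'}
    (h : Marg Q P f) (ω : Ω') : law Q f ω = P ω := by
  classical
  rw [← h ω]
  unfold law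
  exact Finset.sum_congr rfl fun v _ => by split_ifs <;> rfl

theorem pr_empty {Ω : Type} [Fintype Ω] (p : Ω → ℝ) (E : Set Ω) (h : ∀ v, v ∉ E) :
    Pr p E = 0 := by
  classical
  rw [Pr_eq]
  exact Finset.sum_eq_zero fun v _ => if_neg (h v)

/-! ### digits -/

section Digits

variable {W : Type} (E : ℕ → W → Fin 5 → ℤ) (xs : W → Fin 5 → ℝ)

/-- Five numbers, each to some precision. -/
noncomputable def fl (s : ℕ) (w : W) (r : Fin 5) : ℤ := ⌊(2 : ℝ) ^ (E s w r) * xs w r⌋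

/-- The last digits of the five numbers as one digit. -/
noncomputable def dg (s : ℕ) (w : W) : Fin 64 :=
  Fin.castLE (by norm_num : 2 ^ 5 ≤ 64)
    (finFunctionFinEquiv (fun r : Fin 5 => par (fl E xs (s + 1) w r)))

theorem dg_iff (s : ℕ) (w w' : W) : dg E xs s w = dg E xs s w' ↔
    ∀ r, par (fl E xs (s + 1) w r) = par (fl E xs (s + 1) w' r) := by
  unfold dg
  constructor
  · intro h
    have h1 := Fin.castLE_injective _ h
    have h2 := finFunctionFinEquiv.injective h1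
    exact congrFun h2
  · intro h
    congr 2
    exact funext h

variable {E xs}

theorem fl_succ {s : ℕ} {w w' : W}
    (hE : ∀ r, E (s + 1) w r = E s w r ∨ E (s + 1) w r = E s w r + 1)
    (h1 : E s w = E s w') (h2 : E (s + 1) w = E (s + 1) w')
    (h3 : ∀ r, fl E xs s w r = fl E xs s w' r) (h4 : dg E xs s w = dg E xs s w') (r : Fin 5) :
    fl E xs (s + 1) w r = fl E xs (s + 1) w' r := by
  have h5 := (dg_iff E xs s w w').1 h4 r
  have h6 := h3 r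
  unfold fl at h5 h6 ⊢
  rw [← h2] at h5 ⊢
  rw [← h1] at h6
  rcases hE r with h | h
  · rw [h]
    exact h6
  · rw [h] at h5 ⊢
    refine par_inj ?_ h5
    rw [fl_half, fl_half, h6]

theorem fl_pred {s : ℕ} {w w' : W}
    (hE : ∀ r, E (s + 1) w r = E s w r ∨ E (s + 1) w r = E s w r + 1)
    (h1 : E s w = E s w') (h2 : E (s + 1) w = E (s + 1) w')
    (h3 : ∀ r, fl E xs (s + 1) w r = fl E xs (s + 1) w' r) (r : Fin 5) :
    fl E xs s w r = fl E xs s w' r := by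
  have h6 := h3 r
  unfold fl at h6 ⊢
  rw [← h2] at h6
  rw [← h1]
  rcases hE r with h | h
  · rw [h] at h6
    exact h6
  · rw [h] at h6
    rw [← fl_half (E s w r) (xs w r), ← fl_half (E s w r) (xs w' r), h6]

end Digits

variable (d : Dat)

theorem Qp_marg (hp : ∀ ω, 0 ≤ d.P ω) (i : ℕ) : Marg (d.Qp i) d.P (fun w => w.1) :=
  dbl_fst hp

theorem Qp_snd (hp : ∀ ω, 0 ≤ d.P ω) (i : ℕ) : Marg (d.Qp i) d.P (fun w => w.2) :=
  dbl_snd hp

theorem Qp_isLaw (hp : IsLaw d.P) (i : ℕ) : IsLaw (d.Qp i) := by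
  refine ⟨fun w => dbl_nonneg hp.nonneg w, ?_⟩
  rw [(Qp_marg d hp.nonneg i).sum]
  exact hp.sum_one

theorem Qp_eq (i : ℕ) : d.Qp i =
    Pool.OC.pairT d.P d.L d.T (fun t => ⌊(2 : ℝ) ^ i * d.th t⌋) := by
  funext w
  rfl

theorem Qp_pos (hp : IsLaw d.P) {i : ℕ} {w : d.Om × d.Om} (h : 0 < d.Qp i w) :
    0 < d.P w.1 ∧ 0 < d.P w.2 ∧ d.L w.1 = d.L w.2 := by
  rw [Qp_eq] at h
  obtain ⟨h1, h2, h3, h4⟩ := Pool.OC.addT_pos hp hp h
  exact ⟨h1, h2, h3⟩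

theorem Q3_eq (j i : ℕ) : d.Q3 j i = Pool.OC.addT (Pool.OC.pairT d.P d.L d.T
    (fun t => ⌊(2 : ℝ) ^ j * d.th t⌋)) d.P d.L d.T (fun t => ⌊(2 : ℝ) ^ i * d.th t⌋)
    Prod.fst := by
  funext w
  rfl

theorem Q3_isLaw (hp : IsLaw d.P) (j i : ℕ) : IsLaw (d.Q3 j i) := by
  rw [Q3_eq]
  exact Pool.OC.addT_isLaw (Qp_isLaw d hp j) hp (Qp_marg d hp.nonneg j)

theorem Q3_fst (hp : IsLaw d.P) (j i : ℕ) : Marg (d.Q3 j i) (d.Qp j) (fun u => u.1) := by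
  rw [Q3_eq]
  exact Pool.OC.addT_fst (Qp_isLaw d hp j) (Qp_marg d hp.nonneg j)

theorem Q3_snd (hp : IsLaw d.P) (j i : ℕ) : Marg (d.Q3 j i) d.P (fun u => u.2) := by
  rw [Q3_eq]
  exact Pool.OC.addT_snd hp (Qp_marg d hp.nonneg j)

theorem Q3_pos (hp : IsLaw d.P) {j i : ℕ} {u : (d.Om × d.Om) × d.Om} (h : 0 < d.Q3 j i u) :
    0 < d.Qp j u.1 ∧ 0 < d.P u.2 ∧ d.L u.2 = d.L u.1.1 := by
  rw [Q3_eq] at h
  obtain ⟨h1, h2, h3, h4⟩ := Pool.OC.addT_pos (Qp_isLaw d hp j) hp h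
  exact ⟨h1, h2, h3.symm⟩

theorem Qp_mi (hp : IsLaw d.P) (j : ℕ) {a : ℝ} (ha : MI d.P d.T d.L (fun _ => ()) ≤ a) :
    MI (d.Qp j) (fun w => d.L w.1) (fun w => (d.T w.1, d.T w.2)) (fun _ => ()) ≤ 2 * a := by
  rw [Qp_eq]
  exact Pool.OC.cost_pair hp d.L d.T _ a (by rw [Pool.OC.mi_comm _ _ _ hp.nonneg]; exact ha)

theorem Q3_mi (hp : IsLaw d.P) (j i : ℕ) {a : ℝ} (ha : MI d.P d.T d.L (fun _ => ()) ≤ a) :
    MI (d.Q3 j i) (fun u => d.L u.1.1) (fun u => ((d.T u.1.1, d.T u.1.2), d.T u.2))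
      (fun _ => ()) ≤ 3 * a := by
  rw [Q3_eq]
  exact Pool.OC.cost_triple hp d.L d.T _ _ a
    (by rw [Pool.OC.mi_comm _ _ _ hp.nonneg]; exact ha) Prod.fst (Or.inl rfl)

/-- The entropy of a label. -/
theorem lab_card {Ω S : Type} [Fintype Ω] {Q : Ω → ℝ} (hQ : IsLaw Q) (c : Ω → ℤ) (b : Ω → S)
    {X : ℕ} (hc : ∀ v, |c v| ≤ 64 * X) : CH Q c b ≤ Real.log (200 * ((X : ℝ) + 1)) := by
  have h := Pool.OC.ch_le_log_card' hQ c b (128 * X + 1) (fun z =>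
    ⟨Finset.Icc (-(64 * X : ℤ)) (64 * X), by rw [Int.card_Icc]; omega, fun v _ _ => by
      rw [Finset.mem_Icc]
      exact abs_le.1 (hc v)⟩)
  refine h.trans (Real.log_le_log (by positivity) ?_)
  push_cast
  have : (0 : ℝ) ≤ X := Nat.cast_nonneg _
  linarith

/-- **From RowOK to the rows of OCS**, for cells made of five numbers of the pair. `f` is the
pair in the tuple, `w₀` the partner. -/
theorem row_gen {Ω γ : Type} [Fintype Ω] {J : d.Om → Set ℕ} {A n j k k₁ : ℕ} {e δ : ℝ}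
    (hOK : d.OK A) (hrow : d.toR.RowOK J k k₁ 64 e δ) (Q : Ω → ℝ) (hQ : IsLaw Q)
    (f : Ω → d.Om × d.Om) (hf : Marg Q (d.Qp j) f) (w₀ : Ω → d.Om) (hw₀ : Marg Q d.P w₀)
    (hL : ∀ v, 0 < Q v → d.L (w₀ v) = d.L (f v).1) (c : d.Om × d.Om → ℤ) (hc : d.Lb c)
    (hcX : ∀ w, |c w| ≤ 64 * d.X) (hlog : Real.log (200 * ((d.X : ℝ) + 1)) ≤ δ * d.X)
    (hMI : MI Q (fun v => d.L (f v).1) (fun v => ((d.T (f v).1, d.T (f v).2), d.T (w₀ v)))
      (fun _ => ()) ≤ δ * d.X)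
    (G : ℕ → d.Om × d.Om → γ) (E : ℕ → d.Om × d.Om → Fin 5 → ℤ) (xs : d.Om × d.Om → Fin 5 → ℝ)
    (hG : ∀ s w w', G s w = G s w' ↔
      d.T w.1 = d.T w'.1 ∧ d.T w.2 = d.T w'.2 ∧ c w = c w' ∧ ∀ r, fl E xs s w r = fl E xs s w' r)
    (hE : ∀ s w r, E (s + 1) w r = E s w r ∨ E (s + 1) w r = E s w r + 1)
    (hE' : ∀ s w w', c w = c w' → E s w = E s w')
    (hxs : ∀ w w', d.T w.1 = d.T w'.1 → d.T w.2 = d.T w'.2 → d.V (d.L w.1) = d.V (d.L w'.1) →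
      xs w = xs w')
    (q : Ω → ℤ) (W : Set Ω) (hq : ∀ v v', d.T (f v).1 = d.T (f v').1 →
      d.T (f v).2 = d.T (f v').2 → d.T (w₀ v) = d.T (w₀ v') → c (f v) = c (f v') →
      q v = q v' ∧ (v ∈ W ↔ v' ∈ W))
    (hclose : ∀ u v s, 0 < Q u → 0 < d.Qp j v → u ∈ W → 8 * n ≤ s → G s v = G s (f u) →
      |d.ZR (d.T (f u).1) (d.T (w₀ u)) (d.L (f u).1) -
        d.ZR (d.T (f u).1) (d.T (w₀ u)) (d.L v.1)| ≤ (2 : ℝ) ^ ((k : ℤ) - (s + q u))) :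
    ∑ s ∈ Finset.Ico (8 * n) (d.X - 8 * n), Ex Q (Set.indicator
      {u | u ∈ W ∧ 0 ≤ (s : ℤ) + q u ∧ ((s : ℤ) + q u).toNat ∈ J (f u).1}
      (fun u => Pr (cond (d.Qp j) (G s) (G s (f u)))
        {v | (2 : ℝ) ^ (-((s : ℤ) + q u + k₁)) ≤
          |d.ZR (d.T (f u).1) (d.T (w₀ u)) (d.L (f u).1) -
            d.ZR (d.T (f u).1) (d.T (w₀ u)) (d.L v.1)|})) ≤ e * d.X := by
  classical
  have hp := hOK.law
  have hp0 := hp.nonneg
  have h := hrow Ω (d.Tau × d.Tau) ((d.Tau × d.Tau) × d.Tau) ℤ (fun _ => γ) Q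
    (fun v => (f v).1) w₀ (fun v => (d.T (f v).1, d.T (f v).2))
    (fun v => ((d.T (f v).1, d.T (f v).2), d.T (w₀ v))) (fun v => c (f v))
    (fun s v => G s (f v)) (fun s v => dg E xs s (f v)) q W (8 * n) (d.X - 8 * n) hQ
    ?_ ?_ ?_ ?_ ?_ ?_ ?_ ?_ ?_ ?_ ?_ ?_ ?_
  · refine le_trans (le_of_eq ?_) h
    refine Finset.sum_congr rfl fun s _ => ?_
    rw [pr_dbl]
    unfold Ex
    refine Finset.sum_congr rfl fun u _ => ?_
    rcases (hQ.nonneg u).eq_or_lt with h0 | h0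
    · rw [← h0, zero_mul, zero_mul]
    congr 1
    by_cases hu : u ∈ {u | u ∈ W ∧ 0 ≤ (s : ℤ) + q u ∧ ((s : ℤ) + q u).toNat ∈ J (f u).1}
    · rw [Set.indicator_of_mem hu]
      rw [← pr_cond_marg hf hQ.nonneg
        (fun u => ((d.T (f u).1, d.T (f u).2), c (f u), G s (f u))) (G s) (w := u)]
      · refine pr_congr (fun ω => cond_nonneg hQ.nonneg _ _ _) fun u' hu' => ?_
        have hu'' : u ∈ W ∧ 0 ≤ (s : ℤ) + q u ∧ ((s : ℤ) + q u).toNat ∈ J (f u).1 := hu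
        constructor
        · intro hmem
          exact ⟨hu''.1, hu''.2.1, hu''.2.2, hmem⟩
        · rintro ⟨-, -, -, hmem⟩
          exact hmem
      · intro u' hu'
        constructor
        · intro h1
          exact (Prod.ext_iff.1 (Prod.ext_iff.1 h1).2).2
        · intro h1
          have h2 := (hG s _ _).1 h1
          simp only [Prod.mk.injEq]
          exact ⟨⟨h2.1, h2.2.1⟩, h2.2.2.1, h1⟩
    · rw [Set.indicator_of_notMem hu]
      symm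
      exact pr_empty _ _ fun v hv => hu ⟨hv.1, hv.2.1, hv.2.2.1⟩
  · intro ω
    exact law_self (hf.comp (Qp_marg d hp0 j)) ω
  · intro ω
    exact law_self hw₀ ω
  · intro u hu
    exact hL u hu
  · intro u u' _ _ h1
    simp only [Prod.mk.injEq] at h1 ⊢
    exact ⟨h1.1, h1.1.1, h1.2⟩
  · exact hMI
  · intro u u' _ _ h1
    simp only [Prod.mk.injEq] at h1
    exact hc _ _ h1.2 h1.1.1 h1.1.2
  · exact (lab_card hQ (fun v => c (f v)) _ (fun v => hcX (f v))).trans hlog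
  · intro s _ u u' _ _ h1
    simp only [Prod.mk.injEq] at h1
    obtain ⟨⟨e1, e2⟩, e3, e4⟩ := h1
    rw [hG]
    refine ⟨e1, e2, e3, fun r => ?_⟩
    unfold fl
    rw [hxs _ _ e1 e2 e4, hE' s _ _ e3]
  · intro s _ u u' _ _ h1
    simp only [Prod.mk.injEq] at h1
    have h2 := (hG s _ _).1 h1.1
    rw [hG]
    exact ⟨h2.1, h2.2.1, h2.2.2.1, fl_succ (hE s _) (hE' s _ _ h2.2.2.1)
      (hE' (s + 1) _ _ h2.2.2.1) h2.2.2.2 h1.2⟩
  · intro s _ u u' _ _ h1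
    have h2 := (hG (s + 1) _ _).1 h1
    refine Prod.ext ?_ ?_
    · show G s (f u) = G s (f u')
      rw [hG]
      exact ⟨h2.1, h2.2.1, h2.2.2.1, fl_pred (hE s _) (hE' s _ _ h2.2.2.1)
        (hE' (s + 1) _ _ h2.2.2.1) h2.2.2.2⟩
    · show dg E xs s (f u) = dg E xs s (f u')
      rw [dg_iff]
      intro r
      rw [h2.2.2.2 r]
  · intro s _ u u' _ _ h1
    simp only [Prod.mk.injEq] at h1
    obtain ⟨⟨⟨e1, e2⟩, e3⟩, e4, -⟩ := h1
    have h2 := hq u u' e1 e2 e3 e4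
    exact Prod.ext h2.1 (propext h2.2)
  · intro s u u' hs hu hu' hW _ _ h1
    have hpos : 0 < d.Qp j (f u') := by
      rw [← hf (f u')]
      refine Finset.sum_pos' (fun v _ => ?_) ⟨u', Finset.mem_univ u', ?_⟩
      · split_ifs
        exacts [hQ.nonneg v, le_rfl]
      · rw [if_pos rfl]
        exact hu'
    exact hclose u (f u') s hu hpos hW hs h1.symm
  · show d.X - 8 * n ≤ d.X
    omega

end Pool.OCS.RW
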